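import Pool.Agent.Helper30.LK.St

/-!
# Project LK, module CN1: integers with all prime factors at least `x ^ (2/5)`
-/

set_option autoImplicit false

noncomputable section

namespace Pool.Agent.Helper44.LK

open Pool.Agent.Helper30.LK
open Finset ArithmeticFunction Filter
open Pool.Agent.Helper18.TR (StFL)
open Pool.Agent.Helper15.AB (StMT)
open Pool.Agent.Helper48.BK (StSW th)
open Pool.Agent.Helper30.PB (StPRP StPIP)

/-- the sum of `1 / l` over the primes `7 ≤ l ≤ n` -/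
private lemma cn1_sum (n : ℕ) : ∑ l ∈ (Icc 1 n).filter Nat.Prime, (1 : ℝ) / l ≤
    ∑ l ∈ (Icc 7 n).filter Nat.Prime, (1 : ℝ) / l + 2 := by
  have hsub : (Icc 1 n).filter Nat.Prime ⊆
      (Icc 7 n).filter Nat.Prime ∪ (Icc 1 6).filter Nat.Prime := by
    intro l hl
    rw [mem_filter, mem_Icc] at hl
    rw [mem_union, mem_filter, mem_filter, mem_Icc, mem_Icc]
    by_cases h : 7 ≤ l
    · exact Or.inl ⟨⟨h, hl.1.2⟩, hl.2⟩
    · exact Or.inr ⟨⟨hl.1.1, by omega⟩, hl.2⟩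
  have hnn : ∀ l : ℕ, (0 : ℝ) ≤ 1 / l := fun l => by positivity
  have h1 := sum_le_sum_of_subset_of_nonneg (f := fun l : ℕ => (1 : ℝ) / l) hsub
    (fun l _ _ => hnn l)
  have h2 := sum_union_inter (s₁ := (Icc 7 n).filter Nat.Prime)
    (s₂ := (Icc 1 6).filter Nat.Prime) (f := fun l : ℕ => (1 : ℝ) / l)
  have h3 : (0 : ℝ) ≤ ∑ l ∈ (Icc 7 n).filter Nat.Prime ∩ (Icc 1 6).filter Nat.Prime, (1 : ℝ) / l :=
    sum_nonneg fun l _ => hnn l
  have h4 : ∑ l ∈ (Icc 1 6).filter Nat.Prime, (1 : ℝ) / l ≤ 2 := by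
    have e : (Icc 1 6).filter Nat.Prime = {2, 3, 5} := by decide
    rw [e, sum_insert (by decide), sum_insert (by decide), sum_singleton]
    norm_num
  linarith

open Classical in
theorem hCN1 (hS : StSVU) (hM : StMT) : StCN1 := by
  obtain ⟨C, δ, hC, hδ, hδ4, hS⟩ := hS
  obtain ⟨D, hD, hM⟩ := hM
  refine ⟨C * (Real.exp (D + 2) / (δ / 2)), by positivity, ⌈(3 : ℝ) ^ (2 / δ)⌉₊ + 3, ?_⟩
  intro x y hx hxy hyx
  have hx3 : (3 : ℝ) ≤ x := by
    have : 3 ≤ x := by omega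
    exact_mod_cast this
  have hx1 : (1 : ℝ) ≤ x := by linarith
  have hx0 : (0 : ℝ) < x := by linarith
  have hlx : 0 < Real.log x := Real.log_pos (by linarith)
  -- the level `t`
  obtain ⟨t, ht⟩ : ∃ t, t = (x : ℝ) ^ (δ / 2) := ⟨_, rfl⟩
  have ht3 : 3 ≤ t := by
    have h1 : (3 : ℝ) ^ (2 / δ) ≤ x := by
      have a := Nat.le_ceil ((3 : ℝ) ^ (2 / δ))
      have b : ((⌈(3 : ℝ) ^ (2 / δ)⌉₊ : ℕ) : ℝ) ≤ x := by
        have : ⌈(3 : ℝ) ^ (2 / δ)⌉₊ ≤ x := by omega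
        exact_mod_cast this
      linarith
    have h2 := Real.rpow_le_rpow (by positivity) h1 (by positivity : 0 ≤ δ / 2)
    rw [← Real.rpow_mul (by norm_num)] at h2
    have e : 2 / δ * (δ / 2) = 1 := by field_simp
    rw [e, Real.rpow_one] at h2
    rw [ht]
    exact h2
  have hy1 : (1 : ℝ) ≤ y := (Real.one_le_rpow hx1 (by norm_num)).trans hxy
  have hty : t ≤ (y : ℝ) ^ δ := by
    have h1 : ((x : ℝ) ^ (7 / 8 : ℝ)) ^ δ ≤ (y : ℝ) ^ δ :=
      Real.rpow_le_rpow (by positivity) hxy hδ.le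
    rw [← Real.rpow_mul hx0.le] at h1
    have h2 : (x : ℝ) ^ (δ / 2) ≤ (x : ℝ) ^ (7 / 8 * δ) :=
      Real.rpow_le_rpow_of_exponent_le hx1 (by linarith)
    rw [ht]
    exact h2.trans h1
  have htx : t < (x : ℝ) ^ (2 / 5 : ℝ) := by
    rw [ht]
    exact Real.rpow_lt_rpow_of_exponent_lt (by linarith) (by linarith)
  have hy2 : 2 ≤ y := by
    have h1 : (2 : ℝ) < y := by
      by_contra hcon
      push Not at hcon
      have h2 : (y : ℝ) ^ δ ≤ (y : ℝ) ^ (1 : ℝ) :=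
        Real.rpow_le_rpow_of_exponent_le hy1 (by linarith)
      rw [Real.rpow_one] at h2
      linarith
    exact_mod_cast h1.le
  -- the sieve
  obtain ⟨S, hSd⟩ : ∃ S : ℕ → Finset ℕ, S = fun l : ℕ =>
    if (l : ℝ) < (x : ℝ) ^ (2 / 5 : ℝ) then ({0} : Finset ℕ) else ∅ := ⟨_, rfl⟩
  have hS1 := hS y hy2 S (by
    intro l hl h7
    rw [hSd]
    dsimp only
    split_ifs
    · refine ⟨fun s hs => ?_, by simp⟩
      rw [mem_singleton] at hs
      omega
    · exact ⟨fun s hs => absurd hs (notMem_empty s), by simp⟩)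
  have hsub : (Icc 1 y).filter (fun m => ∀ l : ℕ, l.Prime → l ∣ m → (x : ℝ) ^ (2 / 5 : ℝ) ≤ l) ⊆
      (Icc 1 y).filter (fun m : ℕ => ∀ l : ℕ, l.Prime → 7 ≤ l → (l : ℝ) ≤ (y : ℝ) ^ δ →
        m % l ∉ S l) := by
    intro m hm
    rw [mem_filter] at hm ⊢
    refine ⟨hm.1, fun l hl _ _ hml => ?_⟩
    rw [hSd] at hml
    dsimp only at hml
    split_ifs at hml with h
    · rw [mem_singleton] at hml
      exact absurd (hm.2 l hl (Nat.dvd_of_mod_eq_zero hml)) (not_le.2 h)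
    · exact absurd hml (notMem_empty _)
  have hcard := card_le_card hsub
  have hcard' : (((Icc 1 y).filter
      (fun m => ∀ l : ℕ, l.Prime → l ∣ m → (x : ℝ) ^ (2 / 5 : ℝ) ≤ l)).card : ℝ) ≤
      C * y * Real.exp (-∑ l ∈ (Icc 7 ⌊(y : ℝ) ^ δ⌋₊).filter Nat.Prime, ((S l).card : ℝ) / l) := by
    refine le_trans ?_ hS1
    exact_mod_cast hcard
  refine hcard'.trans ?_
  -- the sum
  have hsum : Real.log (Real.log t) - D - 2 ≤
      ∑ l ∈ (Icc 7 ⌊(y : ℝ) ^ δ⌋₊).filter Nat.Prime, ((S l).card : ℝ) / l := by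
    have h1 := (abs_le.1 (hM t ht3)).1
    have h2 := cn1_sum ⌊t⌋₊
    have h3 : ∑ l ∈ (Icc 7 ⌊t⌋₊).filter Nat.Prime, (1 : ℝ) / l ≤
        ∑ l ∈ (Icc 7 ⌊(y : ℝ) ^ δ⌋₊).filter Nat.Prime, ((S l).card : ℝ) / l := by
      have h4 : ∑ l ∈ (Icc 7 ⌊t⌋₊).filter Nat.Prime, (1 : ℝ) / l =
          ∑ l ∈ (Icc 7 ⌊t⌋₊).filter Nat.Prime, ((S l).card : ℝ) / l := by
        refine sum_congr rfl fun l hl => ?_
        rw [mem_filter, mem_Icc] at hl
        have h5 : (l : ℝ) ≤ t := (Nat.le_floor_iff (by linarith)).1 hl.1.2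
        have h6 : (l : ℝ) < (x : ℝ) ^ (2 / 5 : ℝ) := by linarith
        have h7 : S l = {0} := by
          rw [hSd]
          dsimp only
          rw [if_pos h6]
        rw [h7]
        simp
      rw [h4]
      refine sum_le_sum_of_subset_of_nonneg ?_ fun l _ _ => by positivity
      intro l hl
      rw [mem_filter, mem_Icc] at hl ⊢
      exact ⟨⟨hl.1.1, hl.1.2.trans (Nat.floor_le_floor hty)⟩, hl.2⟩
    linarith
  have hlt : Real.log t = δ / 2 * Real.log x := by rw [ht, Real.log_rpow hx0]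
  have hlt0 : 0 < Real.log t := by rw [hlt]; positivity
  have hexp : Real.exp (-∑ l ∈ (Icc 7 ⌊(y : ℝ) ^ δ⌋₊).filter Nat.Prime, ((S l).card : ℝ) / l) ≤
      Real.exp (D + 2) / (δ / 2) / Real.log x := by
    have h1 : Real.exp (-∑ l ∈ (Icc 7 ⌊(y : ℝ) ^ δ⌋₊).filter Nat.Prime, ((S l).card : ℝ) / l) ≤
        Real.exp ((D + 2) - Real.log (Real.log t)) := Real.exp_le_exp.2 (by linarith)
    rw [Real.exp_sub, Real.exp_log hlt0, hlt] at h1
    have e : Real.exp (D + 2) / (δ / 2) / Real.log x = Real.exp (D + 2) / (δ / 2 * Real.log x) := by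
      rw [div_div]
    rw [e]
    exact h1
  calc C * y * Real.exp (-∑ l ∈ (Icc 7 ⌊(y : ℝ) ^ δ⌋₊).filter Nat.Prime, ((S l).card : ℝ) / l)
      ≤ C * y * (Real.exp (D + 2) / (δ / 2) / Real.log x) :=
        mul_le_mul_of_nonneg_left hexp (by positivity)
    _ = C * (Real.exp (D + 2) / (δ / 2)) * (y / Real.log x) := by ring

end Pool.Agent.Helper44.LK
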